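import Mathlib

/-!
The two point Pick inequality in the right half plane, Julia's lemma, Hopf's lemma and the slice lemma.
-/

set_option autoImplicit false

open Set Metric Filter Topology ComplexConjugate

namespace Pool.Agent.Q184.BK

/-- The right half plane. -/
def RH : Set ℂ := {z | 0 < z.re}

theorem RH_open : IsOpen RH := isOpen_lt continuous_const Complex.continuous_re

theorem norm_add_conj_sq (a b : ℂ) : ‖a + conj b‖ ^ 2 - ‖a - b‖ ^ 2 = 4 * a.re * b.re := by
  rw [← Complex.normSq_eq_norm_sq, ← Complex.normSq_eq_norm_sq]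
  simp only [Complex.normSq_apply, Complex.add_re, Complex.add_im, Complex.sub_re, Complex.sub_im,
    Complex.conj_re, Complex.conj_im]
  ring

theorem pick_pos (g : ℂ → ℂ) (hg : DifferentiableOn ℂ g RH) (hpos : ∀ z ∈ RH, 0 ≤ (g z).re)
    (z w : ℂ) (hz : z ∈ RH) (hw : w ∈ RH) (hgw : 0 < (g w).re) :
    ‖g z + conj (g w)‖ ^ 2 * (z.re * w.re) ≤ (g z).re * (g w).re * ‖z + conj w‖ ^ 2 := by
  have hz' : 0 < z.re := hz
  have hw' : 0 < w.re := hw
  -- the Cayley parameter
  let Y : ℂ → ℂ := fun ζ => (w + ζ * conj w) / (1 - ζ)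
  have hY : ∀ ζ ∈ ball (0 : ℂ) 1, Y ζ ∈ RH := by
    intro ζ hζ
    rw [mem_ball_zero_iff] at hζ
    have h1 : (1 : ℂ) - ζ ≠ 0 := by
      intro h
      have : ζ = 1 := by linear_combination -h
      rw [this, norm_one] at hζ
      exact lt_irrefl _ hζ
    have h2 : 0 < Complex.normSq (1 - ζ) := Complex.normSq_pos.mpr h1
    show 0 < ((w + ζ * conj w) / (1 - ζ)).re
    rw [Complex.div_re, ← add_div]
    apply div_pos _ h2
    have h3 : (w + ζ * conj w).re * (1 - ζ).re + (w + ζ * conj w).im * (1 - ζ).im =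
        w.re * (1 - ‖ζ‖ ^ 2) := by
      rw [← Complex.normSq_eq_norm_sq]
      simp only [Complex.normSq_apply, Complex.add_re, Complex.add_im, Complex.sub_re,
        Complex.sub_im, Complex.mul_re, Complex.mul_im, Complex.conj_re, Complex.conj_im,
        Complex.one_re, Complex.one_im]
      ring
    rw [h3]
    apply mul_pos hw'
    nlinarith [norm_nonneg ζ]
  have hYd : DifferentiableOn ℂ Y (ball 0 1) := by
    intro ζ hζ
    rw [mem_ball_zero_iff] at hζ
    have h1 : (1 : ℂ) - ζ ≠ 0 := by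
      intro h
      have : ζ = 1 := by linear_combination -h
      rw [this, norm_one] at hζ
      exact lt_irrefl _ hζ
    apply DifferentiableAt.differentiableWithinAt
    fun_prop (disch := exact h1)
  have hden : ∀ x ∈ RH, g x + conj (g w) ≠ 0 := by
    intro x hx h
    have h1 := congrArg Complex.re h
    simp only [Complex.add_re, Complex.conj_re, Complex.zero_re] at h1
    have := hpos x hx
    linarith
  let f : ℂ → ℂ := fun ζ => (g (Y ζ) - g w) / (g (Y ζ) + conj (g w))
  have hfd : DifferentiableOn ℂ f (ball 0 1) := by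
    have h1 : DifferentiableOn ℂ (fun ζ => g (Y ζ)) (ball 0 1) := hg.comp hYd hY
    exact (h1.sub_const _).div (h1.add_const _) (fun ζ hζ => hden _ (hY ζ hζ))
  have hfm : MapsTo f (ball 0 1) (closedBall 0 1) := by
    intro ζ hζ
    rw [mem_closedBall_zero_iff]
    show ‖(g (Y ζ) - g w) / (g (Y ζ) + conj (g w))‖ ≤ 1
    have h1 := norm_pos_iff.mpr (hden _ (hY ζ hζ))
    rw [norm_div, div_le_one h1]
    have h2 := norm_add_conj_sq (g (Y ζ)) (g w)
    have h3 := hpos _ (hY ζ hζ)
    have h4 : ‖g (Y ζ) - g w‖ ^ 2 ≤ ‖g (Y ζ) + conj (g w)‖ ^ 2 := by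
      nlinarith [mul_nonneg h3 hgw.le]
    exact le_of_sq_le_sq h4 h1.le
  have hf0 : f 0 = 0 := by
    simp [f, Y]
  -- the point
  have hzw : z + conj w ≠ 0 := by
    intro h
    have h1 := congrArg Complex.re h
    simp only [Complex.add_re, Complex.conj_re, Complex.zero_re] at h1
    linarith
  have hzwn : 0 < ‖z + conj w‖ := norm_pos_iff.mpr hzw
  let ζ : ℂ := (z - w) / (z + conj w)
  have hζn : ‖ζ‖ < 1 := by
    show ‖(z - w) / (z + conj w)‖ < 1
    rw [norm_div, div_lt_one hzwn]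
    have h2 := norm_add_conj_sq z w
    have h3 : 0 < z.re * w.re := mul_pos hz' hw'
    exact lt_of_pow_lt_pow_left₀ 2 hzwn.le (by nlinarith)
  have hYζ : Y ζ = z := by
    have h1 : (1 : ℂ) - ζ ≠ 0 := by
      intro h
      have : ζ = 1 := by linear_combination -h
      rw [this, norm_one] at hζn
      exact lt_irrefl _ hζn
    show (w + ζ * conj w) / (1 - ζ) = z
    rw [div_eq_iff h1]
    show w + (z - w) / (z + conj w) * conj w = z * (1 - (z - w) / (z + conj w))
    field_simp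
    ring
  have h5 := Complex.norm_le_norm_of_mapsTo_ball hfd hfm hf0 hζn
  have h6 : f ζ = (g z - g w) / (g z + conj (g w)) := by
    show (g (Y ζ) - g w) / (g (Y ζ) + conj (g w)) = _
    rw [hYζ]
  rw [h6] at h5
  have h5' : ‖g z - g w‖ / ‖g z + conj (g w)‖ ≤ ‖z - w‖ / ‖z + conj w‖ := by
    rw [← norm_div, ← norm_div]
    exact h5
  have hgn := norm_pos_iff.mpr (hden z hz)
  rw [div_le_div_iff₀ hgn hzwn] at h5'
  have h7 : (‖g z - g w‖ * ‖z + conj w‖) ^ 2 ≤ (‖z - w‖ * ‖g z + conj (g w)‖) ^ 2 :=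
    pow_le_pow_left₀ (by positivity) h5' 2
  rw [mul_pow, mul_pow] at h7
  have h8 := norm_add_conj_sq z w
  have h9 := norm_add_conj_sq (g z) (g w)
  have h10 : ‖z - w‖ ^ 2 = ‖z + conj w‖ ^ 2 - 4 * z.re * w.re := by linarith
  have h11 : ‖g z - g w‖ ^ 2 = ‖g z + conj (g w)‖ ^ 2 - 4 * (g z).re * (g w).re := by linarith
  rw [h10, h11] at h7
  nlinarith

/-- The two point Pick inequality. -/
theorem pick (g : ℂ → ℂ) (hg : DifferentiableOn ℂ g RH) (hpos : ∀ z ∈ RH, 0 ≤ (g z).re)
    (z w : ℂ) (hz : z ∈ RH) (hw : w ∈ RH) :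
    ‖g z + conj (g w)‖ ^ 2 * (z.re * w.re) ≤ (g z).re * (g w).re * ‖z + conj w‖ ^ 2 := by
  have key : ∀ ε : ℝ, 0 < ε →
      ‖(g z + ε) + conj (g w + ε)‖ ^ 2 * (z.re * w.re) ≤
        ((g z).re + ε) * ((g w).re + ε) * ‖z + conj w‖ ^ 2 := by
    intro ε hε
    have h := pick_pos (fun x => g x + ε) (hg.add_const _) (fun x hx => by
      have := hpos x hx
      simp only [Complex.add_re, Complex.ofReal_re]
      linarith) z w hz hw (by
      have := hpos w hw
      simp only [Complex.add_re, Complex.ofReal_re]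
      linarith)
    simpa using h
  have h1 : Tendsto (fun ε : ℝ => ‖(g z + ε) + conj (g w + ε)‖ ^ 2 * (z.re * w.re)) (𝓝[>] 0)
      (𝓝 (‖(g z + ((0 : ℝ) : ℂ)) + conj (g w + ((0 : ℝ) : ℂ))‖ ^ 2 * (z.re * w.re))) := by
    apply tendsto_nhdsWithin_of_tendsto_nhds
    apply Continuous.tendsto
    fun_prop
  have h2 : Tendsto (fun ε : ℝ => ((g z).re + ε) * ((g w).re + ε) * ‖z + conj w‖ ^ 2) (𝓝[>] 0)
      (𝓝 (((g z).re + 0) * ((g w).re + 0) * ‖z + conj w‖ ^ 2)) := by
    apply tendsto_nhdsWithin_of_tendsto_nhds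
    apply Continuous.tendsto
    fun_prop
  have h3 := le_of_tendsto_of_tendsto h1 h2 (by
    filter_upwards [self_mem_nhdsWithin] with ε hε
    exact key ε hε)
  simpa using h3

/-- Julia's lemma: if `Re g (n) / n → 1` then `Re g (z) ≥ Re z`. -/
theorem julia (g : ℂ → ℂ) (hg : DifferentiableOn ℂ g RH) (hpos : ∀ z ∈ RH, 0 ≤ (g z).re)
    (hlim : Tendsto (fun n : ℕ => (g n).re / n) atTop (𝓝 1)) (z : ℂ) (hz : z ∈ RH) :
    z.re ≤ (g z).re := by
  have hz' : 0 < z.re := hz
  by_contra hlt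
  rw [not_le] at hlt
  have hgz := hpos z hz
  -- inequality at `n`
  have hineq : ∀ n : ℕ, 0 < n → ((g n).re / n) ^ 2 * z.re ≤
      (g z).re * ((g n).re / n) * (‖z + n‖ / n) ^ 2 := by
    intro n hn
    have hn' : (0 : ℝ) < n := by exact_mod_cast hn
    have hnR : ((n : ℕ) : ℂ) ∈ RH := by
      show 0 < ((n : ℕ) : ℂ).re
      rw [Complex.natCast_re]; exact hn'
    have h1 := pick g hg hpos z n hz hnR
    rw [Complex.conj_natCast, Complex.natCast_re] at h1
    have h2 : (g n).re ≤ ‖g z + conj (g n)‖ := by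
      have := Complex.re_le_norm (g z + conj (g n))
      rw [Complex.add_re, Complex.conj_re] at this
      linarith
    have h3 : (g n).re ^ 2 ≤ ‖g z + conj (g n)‖ ^ 2 :=
      pow_le_pow_left₀ (hpos _ hnR) h2 2
    have h4 : (g n).re ^ 2 * (z.re * n) ≤ (g z).re * (g n).re * ‖z + n‖ ^ 2 :=
      (mul_le_mul_of_nonneg_right h3 (by positivity)).trans h1
    have h5 : ((g n).re / n) ^ 2 * z.re = ((g n).re ^ 2 * (z.re * n)) / n ^ 3 := by
      field_simp
    have h6 : (g z).re * ((g n).re / n) * (‖z + n‖ / n) ^ 2 =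
        ((g z).re * (g n).re * ‖z + n‖ ^ 2) / n ^ 3 := by
      field_simp
    rw [h5, h6]
    exact div_le_div_of_nonneg_right h4 (by positivity)
  have hratio : Tendsto (fun n : ℕ => ‖z + n‖ / n) atTop (𝓝 1) := by
    have h1 : Tendsto (fun n : ℕ => ‖z * (1 / (n : ℂ)) + 1‖) atTop (𝓝 ‖z * 0 + 1‖) := by
      apply Tendsto.norm
      apply Tendsto.add_const
      apply Tendsto.const_mul
      exact tendsto_one_div_atTop_nhds_zero_nat
    rw [mul_zero, zero_add, norm_one] at h1
    refine h1.congr' ?_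
    filter_upwards [eventually_gt_atTop 0] with n hn
    have hn' : (n : ℂ) ≠ 0 := by exact_mod_cast hn.ne'
    have h2 : z * (1 / (n : ℂ)) + 1 = (z + n) / n := by field_simp
    rw [h2, norm_div, Complex.norm_natCast]
  have hL := (hlim.pow 2).mul_const z.re
  have hR := (hlim.const_mul (g z).re).mul (hratio.pow 2)
  have h7 := le_of_tendsto_of_tendsto hL hR (by
    filter_upwards [eventually_gt_atTop 0] with n hn
    exact hineq n hn)
  simp only [one_pow, one_mul, mul_one] at h7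
  linarith

/-- Hopf's lemma: if `n Re g (n) → 0` then `Re g = 0`. -/
theorem hopf (g : ℂ → ℂ) (hg : DifferentiableOn ℂ g RH) (hpos : ∀ z ∈ RH, 0 ≤ (g z).re)
    (hlim : Tendsto (fun n : ℕ => (g n).re * n) atTop (𝓝 0)) (z : ℂ) (hz : z ∈ RH) :
    (g z).re = 0 := by
  have hz' : 0 < z.re := hz
  have hgz := hpos z hz
  by_contra hne
  have hgz' : 0 < (g z).re := lt_of_le_of_ne hgz (Ne.symm hne)
  have hineq : ∀ n : ℕ, 0 < n → (g z).re * z.re ≤ ((g n).re * n) * (‖z + n‖ / n) ^ 2 := by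
    intro n hn
    have hn' : (0 : ℝ) < n := by exact_mod_cast hn
    have hnR : ((n : ℕ) : ℂ) ∈ RH := by
      show 0 < ((n : ℕ) : ℂ).re
      rw [Complex.natCast_re]; exact hn'
    have h1 := pick g hg hpos z n hz hnR
    rw [Complex.conj_natCast, Complex.natCast_re] at h1
    have h2 : (g z).re ≤ ‖g z + conj (g n)‖ := by
      have := Complex.re_le_norm (g z + conj (g n))
      rw [Complex.add_re, Complex.conj_re] at this
      have := hpos _ hnR
      linarith
    have h3 : (g z).re ^ 2 ≤ ‖g z + conj (g n)‖ ^ 2 := pow_le_pow_left₀ hgz h2 2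
    have h4 : (g z).re ^ 2 * (z.re * n) ≤ (g z).re * (g n).re * ‖z + n‖ ^ 2 :=
      (mul_le_mul_of_nonneg_right h3 (by positivity)).trans h1
    have h5 : (g z).re * (z.re * n) ≤ (g n).re * ‖z + n‖ ^ 2 := by
      have h6 : (g z).re * ((g z).re * (z.re * n)) ≤ (g z).re * ((g n).re * ‖z + n‖ ^ 2) := by
        calc (g z).re * ((g z).re * (z.re * n)) = (g z).re ^ 2 * (z.re * n) := by ring
          _ ≤ (g z).re * (g n).re * ‖z + n‖ ^ 2 := h4
          _ = (g z).re * ((g n).re * ‖z + n‖ ^ 2) := by ring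
      exact le_of_mul_le_mul_left h6 hgz'
    have h7 : ((g n).re * n) * (‖z + n‖ / n) ^ 2 = ((g n).re * ‖z + n‖ ^ 2) / n := by
      field_simp
    rw [h7, le_div_iff₀ hn']
    linarith
  have hratio : Tendsto (fun n : ℕ => ‖z + n‖ / n) atTop (𝓝 1) := by
    have h1 : Tendsto (fun n : ℕ => ‖z * (1 / (n : ℂ)) + 1‖) atTop (𝓝 ‖z * 0 + 1‖) := by
      apply Tendsto.norm
      apply Tendsto.add_const
      apply Tendsto.const_mul
      exact tendsto_one_div_atTop_nhds_zero_nat
    rw [mul_zero, zero_add, norm_one] at h1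
    refine h1.congr' ?_
    filter_upwards [eventually_gt_atTop 0] with n hn
    have hn' : (n : ℂ) ≠ 0 := by exact_mod_cast hn.ne'
    have h2 : z * (1 / (n : ℂ)) + 1 = (z + n) / n := by field_simp
    rw [h2, norm_div, Complex.norm_natCast]
  have hR := hlim.mul (hratio.pow 2)
  have h7 := ge_of_tendsto hR (by
    filter_upwards [eventually_gt_atTop 0] with n hn
    exact hineq n hn)
  simp only [one_pow, mul_one] at h7
  nlinarith [mul_pos hgz' hz']

/-- if `Re g ≥ 0` and `Re g (w) = 0` then `g` is constant -/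
theorem const_of_zero (g : ℂ → ℂ) (hg : DifferentiableOn ℂ g RH) (hpos : ∀ z ∈ RH, 0 ≤ (g z).re)
    (z w : ℂ) (hz : z ∈ RH) (hw : w ∈ RH) (h0 : (g w).re = 0) : g z = g w := by
  have hz' : 0 < z.re := hz
  have hw' : 0 < w.re := hw
  have h1 := pick g hg hpos z w hz hw
  rw [h0, mul_zero, zero_mul] at h1
  have h2 : 0 < z.re * w.re := mul_pos hz' hw'
  have h3 : ‖g z + conj (g w)‖ ^ 2 ≤ 0 := by
    by_contra h
    rw [not_le] at h
    have := mul_pos h h2
    linarith
  have h4 : g z + conj (g w) = 0 := by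
    have : ‖g z + conj (g w)‖ = 0 := by
      have h5 := sq_nonneg ‖g z + conj (g w)‖
      exact pow_eq_zero_iff (two_ne_zero) |>.mp (le_antisymm h3 h5)
    exact norm_eq_zero.mp this
  have h5 : conj (g w) = - g w := by
    apply Complex.ext
    · simp [h0]
    · simp
  rw [h5] at h4
  linear_combination h4

end Pool.Agent.Q184.BK
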