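import Mathlib
import Pool.Agent.Q184.BK.Pick

/-!
The slice lemma: if `g` is holomorphic on the right half plane and for each `z` the numbers `z` and
`g z` are the sum and the product of two points of the half plane, then `g` is a quadratic polynomial.
-/

set_option autoImplicit false

open Set Metric Filter Topology ComplexConjugate

namespace Pool.Agent.Q184.BK

theorem lin_zero_of {x c : ℝ} (h : ∀ t : ℝ, 0 ≤ t * x + c) : x = 0 := by
  by_contra hx
  have h1 := h (-(|c| + 1) / x)
  rw [div_mul_cancel₀ _ hx] at h1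
  have := le_abs_self c
  linarith

theorem re_div_mul (G φ : ℂ) (hφ : φ ≠ 0) : ‖φ‖ ^ 2 * (G / φ).re = (G * conj φ).re := by
  have h1 : G * conj φ = (G / φ) * ((‖φ‖ ^ 2 : ℝ) : ℂ) := by
    rw [← Complex.normSq_eq_norm_sq, ← Complex.mul_conj]
    field_simp
  rw [h1, Complex.re_mul_ofReal]
  ring

theorem slice_id (g : ℂ → ℂ) (hg : DifferentiableOn ℂ g RH)
    (hR : ∀ z ∈ RH, ∃ R1 ∈ RH, ∃ R2 ∈ RH, R1 + R2 = z ∧ R1 * R2 = g z) (z w : ℂ) (hz : z ∈ RH)
    (hw : w ∈ RH) :
    -((g z).im / z.re) - (g w).im / w.re = 2 * (Complex.I * (g z - conj (g w)) / (z + conj w)).re := by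
  have hz' : 0 < z.re := hz
  have hw' : 0 < w.re := hw
  have hzw : z + conj w ≠ 0 := by
    intro h
    have h1 := congrArg Complex.re h
    simp only [Complex.add_re, Complex.conj_re, Complex.zero_re] at h1
    linarith
  set M : ℂ := Complex.I * (g z - conj (g w)) / (z + conj w) with hM
  set N : ℂ := (g z * conj w + conj (g w) * z) / (z + conj w) with hN
  have key : ∀ t : ℝ, 0 ≤ t * (-((g z).im / z.re) - (g w).im / w.re - 2 * M.re) +
      ((g z * conj z).re / z.re + (g w * conj w).re / w.re - 2 * N.re) := by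
    intro t
    let G : ℂ → ℂ := fun x => g x - (Complex.I * t / 2) * x - t ^ 2 / 4
    let φ : ℂ → ℂ := fun x => x - Complex.I * t
    let Q : ℂ → ℂ := fun x => G x / φ x
    have hφre : ∀ x, (φ x).re = x.re := by
      intro x
      simp [φ]
    have hφ : ∀ x ∈ RH, φ x ≠ 0 := by
      intro x hx h
      have h1 := hφre x
      rw [h, Complex.zero_re] at h1
      have hx' : 0 < x.re := hx
      linarith
    have hQd : DifferentiableOn ℂ Q RH := by
      refine DifferentiableOn.div ?_ ?_ hφ
      · exact (hg.sub (by fun_prop)).sub (differentiableOn_const _)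
      · fun_prop
    have hQpos : ∀ x ∈ RH, 0 ≤ (Q x).re := by
      intro x hx
      obtain ⟨R1, h1, R2, h2, hs, hp⟩ := hR x hx
      have h1' : 0 < R1.re := h1
      have h2' : 0 < R2.re := h2
      set A : ℂ := R1 - Complex.I * t / 2 with hA
      set B : ℂ := R2 - Complex.I * t / 2 with hB
      have hAre : A.re = R1.re := by
        rw [hA]
        have : (Complex.I * t / 2 : ℂ) = Complex.I * ((t / 2 : ℝ) : ℂ) := by push_cast; ring
        rw [this]
        simp
      have hBre : B.re = R2.re := by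
        rw [hB]
        have : (Complex.I * t / 2 : ℂ) = Complex.I * ((t / 2 : ℝ) : ℂ) := by push_cast; ring
        rw [this]
        simp
      have hGx : G x = A * B := by
        simp only [G]
        rw [← hp, ← hs, hA, hB]
        have hI : Complex.I ^ 2 = -1 := Complex.I_sq
        linear_combination (-(t : ℂ) ^ 2 / 4) * hI
      have hφx : φ x = A + B := by
        simp only [φ]
        rw [← hs, hA, hB]
        ring
      show 0 ≤ (G x / φ x).re
      have h3 : 0 ≤ ‖φ x‖ ^ 2 * (G x / φ x).re := by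
        rw [re_div_mul _ _ (hφ x hx), hGx, hφx]
        have h4 : (A * B * conj (A + B)).re =
            Complex.normSq A * B.re + Complex.normSq B * A.re := by
          simp only [Complex.normSq_apply, Complex.mul_re, Complex.mul_im, Complex.add_re,
            Complex.add_im, Complex.conj_re, Complex.conj_im, map_add]
          ring
        rw [h4, hAre, hBre]
        have := Complex.normSq_nonneg A
        have := Complex.normSq_nonneg B
        positivity
      have h5 : 0 < ‖φ x‖ ^ 2 := by
        have := norm_pos_iff.mpr (hφ x hx)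
        positivity
      exact nonneg_of_mul_nonneg_right h3 h5
    have hp := pick Q hQd hQpos z w hz hw
    -- the kernel entries
    set k11 : ℝ := (G z * conj (φ z)).re / z.re with hk11
    set k22 : ℝ := (G w * conj (φ w)).re / w.re with hk22
    set k12 : ℂ := (G z * conj (φ w) + conj (G w) * φ z) / (z + conj w) with hk12
    have e11 : k11 = ‖φ z‖ ^ 2 * (Q z).re / z.re := by
      rw [hk11, ← re_div_mul _ _ (hφ z hz)]
    have e22 : k22 = ‖φ w‖ ^ 2 * (Q w).re / w.re := by
      rw [hk22, ← re_div_mul _ _ (hφ w hw)]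
    have hcφw : conj (φ w) ≠ 0 := by
      rw [Ne, map_eq_zero]
      exact hφ w hw
    have e12 : k12 = φ z * conj (φ w) * (Q z + conj (Q w)) / (z + conj w) := by
      rw [hk12]
      congr 1
      simp only [Q, map_div₀]
      have h1 := hφ z hz
      field_simp
    have hQz := hQpos z hz
    have hQw := hQpos w hw
    have h11 : 0 ≤ k11 := by rw [e11]; positivity
    have h22 : 0 ≤ k22 := by rw [e22]; positivity
    have hzwn : 0 < ‖z + conj w‖ := norm_pos_iff.mpr hzw
    have h12 : ‖k12‖ ^ 2 ≤ k11 * k22 := by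
      rw [e12, e11, e22, norm_div, norm_mul, norm_mul, RCLike.norm_conj]
      have h1 : (‖φ z‖ * ‖φ w‖ * ‖Q z + conj (Q w)‖ / ‖z + conj w‖) ^ 2 =
          ‖φ z‖ ^ 2 * ‖φ w‖ ^ 2 * (‖Q z + conj (Q w)‖ ^ 2 / ‖z + conj w‖ ^ 2) := by ring
      have h2 : ‖φ z‖ ^ 2 * (Q z).re / z.re * (‖φ w‖ ^ 2 * (Q w).re / w.re) =
          ‖φ z‖ ^ 2 * ‖φ w‖ ^ 2 * ((Q z).re * (Q w).re / (z.re * w.re)) := by
        field_simp
      rw [h1, h2]
      apply mul_le_mul_of_nonneg_left _ (by positivity)
      rw [div_le_div_iff₀ (by positivity) (mul_pos hz' hw')]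
      linarith
    have hmain : 2 * k12.re ≤ k11 + k22 := by
      have h1 : k12.re ≤ ‖k12‖ := Complex.re_le_norm _
      have h2 : ‖k12‖ ≤ (k11 + k22) / 2 := by
        apply le_of_sq_le_sq _ (by positivity)
        nlinarith [sq_nonneg (k11 - k22)]
      linarith
    -- expansions
    have x11 : k11 = t * (-((g z).im / z.re)) + (g z * conj z).re / z.re + t ^ 2 / 4 := by
      rw [hk11]
      have h1 : (G z * conj (φ z)).re = t * (-(g z).im) + (g z * conj z).re + t ^ 2 / 4 * z.re := by
        simp only [G, φ, Complex.mul_re, Complex.mul_im, Complex.sub_re, Complex.sub_im,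
          Complex.conj_re, Complex.conj_im, Complex.I_re, Complex.I_im, Complex.ofReal_re,
          Complex.ofReal_im, Complex.div_re, Complex.div_im, map_sub, map_mul, Complex.conj_I,
          Complex.conj_ofReal, Complex.neg_re, Complex.neg_im]
        simp [pow_two]
        ring
      rw [h1]
      field_simp
    have x22 : k22 = t * (-((g w).im / w.re)) + (g w * conj w).re / w.re + t ^ 2 / 4 := by
      rw [hk22]
      have h1 : (G w * conj (φ w)).re = t * (-(g w).im) + (g w * conj w).re + t ^ 2 / 4 * w.re := by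
        simp only [G, φ, Complex.mul_re, Complex.mul_im, Complex.sub_re, Complex.sub_im,
          Complex.conj_re, Complex.conj_im, Complex.I_re, Complex.I_im, Complex.ofReal_re,
          Complex.ofReal_im, Complex.div_re, Complex.div_im, map_sub, map_mul, Complex.conj_I,
          Complex.conj_ofReal, Complex.neg_re, Complex.neg_im]
        simp [pow_two]
        ring
      rw [h1]
      field_simp
    have x12 : k12 = t * M + N + ((t ^ 2 / 4 : ℝ) : ℂ) := by
      rw [hk12, hM, hN]
      have h1 : G z * conj (φ w) + conj (G w) * φ z =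
          t * (Complex.I * (g z - conj (g w))) + (g z * conj w + conj (g w) * z) +
            ((t ^ 2 / 4 : ℝ) : ℂ) * (z + conj w) := by
        simp only [G, φ, map_sub, map_mul, map_div₀, map_pow, Complex.conj_I, Complex.conj_ofReal]
        have h2 : conj (2 : ℂ) = 2 := Complex.conj_ofNat 2
        have h4 : conj (4 : ℂ) = 4 := Complex.conj_ofNat 4
        rw [h2, h4]
        push_cast
        have hI : Complex.I ^ 2 = -1 := Complex.I_sq
        linear_combination (-(t : ℂ) ^ 2 / 2 * z - (t : ℂ) ^ 2 / 2 * conj w) * hI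
      rw [h1]
      field_simp
    rw [x11, x22, x12] at hmain
    simp only [Complex.add_re, Complex.re_ofReal_mul, Complex.ofReal_re] at hmain
    linarith
  have h0 := lin_zero_of key
  linarith

/-- the identity in real coordinates -/
theorem slice_real (g : ℂ → ℂ) (hg : DifferentiableOn ℂ g RH)
    (hR : ∀ z ∈ RH, ∃ R1 ∈ RH, ∃ R2 ∈ RH, R1 + R2 = z ∧ R1 * R2 = g z) (z w : ℂ) (hz : z ∈ RH)
    (hw : w ∈ RH) :
    -((g z).im * w.re + (g w).im * z.re) * ((z.re + w.re) ^ 2 + (z.im - w.im) ^ 2) =
      2 * (z.re * w.re) * ((z.im - w.im) * ((g z).re - (g w).re) -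
        (z.re + w.re) * ((g z).im + (g w).im)) := by
  have hz' : 0 < z.re := hz
  have hw' : 0 < w.re := hw
  have h := slice_id g hg hR z w hz hw
  have h1 : (Complex.I * (g z - conj (g w)) / (z + conj w)).re =
      ((z.im - w.im) * ((g z).re - (g w).re) - (z.re + w.re) * ((g z).im + (g w).im)) /
        ((z.re + w.re) ^ 2 + (z.im - w.im) ^ 2) := by
    rw [Complex.div_re]
    simp only [Complex.normSq_apply, Complex.mul_re, Complex.mul_im, Complex.sub_re,
      Complex.sub_im, Complex.add_re, Complex.add_im, Complex.conj_re, Complex.conj_im,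
      Complex.I_re, Complex.I_im]
    rw [← add_div]
    congr 1
    · ring
    · ring
  rw [h1] at h
  have h2 : 0 < (z.re + w.re) ^ 2 + (z.im - w.im) ^ 2 := by positivity
  field_simp at h
  linarith

/-- The slice lemma. -/
theorem slice (g : ℂ → ℂ) (hg : DifferentiableOn ℂ g RH)
    (hR : ∀ z ∈ RH, ∃ R1 ∈ RH, ∃ R2 ∈ RH, R1 + R2 = z ∧ R1 * R2 = g z) :
    ∃ p q r : ℂ, ∀ z ∈ RH, g z = p * z ^ 2 + q * z + r := by
  -- real coordinates
  let u : ℝ → ℝ → ℝ := fun a b => (g ⟨a, b⟩).re
  let v : ℝ → ℝ → ℝ := fun a b => (g ⟨a, b⟩).im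
  have hid : ∀ a b a' b' : ℝ, 0 < a → 0 < a' →
      -(v a b * a' + v a' b' * a) * ((a + a') ^ 2 + (b - b') ^ 2) =
        2 * (a * a') * ((b - b') * (u a b - u a' b') - (a + a') * (v a b + v a' b')) := by
    intro a b a' b' ha ha'
    exact slice_real g hg hR ⟨a, b⟩ ⟨a', b'⟩ ha ha'
  let ν : ℝ → ℝ := fun b => v 1 b
  have hv : ∀ a b : ℝ, 0 < a → v a b = a * ν b := by
    intro a b ha
    by_cases h1 : a = 1
    · rw [h1]; simp [ν]
    · have h := hid a b 1 b ha one_pos
      simp only [sub_self] at h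
      have h2 : (a - 1) * (a + 1) * (v a b - a * v 1 b) = 0 := by
        linear_combination h
      rcases mul_eq_zero.mp h2 with h3 | h3
      · rcases mul_eq_zero.mp h3 with h4 | h4
        · exact absurd (by linarith) h1
        · linarith
      · show v a b = a * v 1 b
        linarith
  -- the second identity
  have hid2 : ∀ a b a' b' : ℝ, 0 < a → 0 < a' →
      2 * (b - b') * (u a b - u a' b') =
        (a ^ 2 - a' ^ 2) * (ν b - ν b') - (ν b + ν b') * (b - b') ^ 2 := by
    intro a b a' b' ha ha'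
    have h := hid a b a' b' ha ha'
    rw [hv a b ha, hv a' b' ha'] at h
    have hne : a * a' ≠ 0 := by positivity
    have h2 : (a * a') * (2 * (b - b') * (u a b - u a' b')) =
        (a * a') * ((a ^ 2 - a' ^ 2) * (ν b - ν b') - (ν b + ν b') * (b - b') ^ 2) := by
      linear_combination -h
    exact mul_left_cancel₀ hne h2
  -- `ν` is affine
  set ν1 : ℝ := 2 / 3 * (u 2 0 - u 1 0) with hν1
  have hν : ∀ b : ℝ, ν b = ν 0 + ν1 * b := by
    intro b
    have h1 := hid2 2 0 1 b two_pos one_pos
    have h2 := hid2 1 0 1 b one_pos one_pos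
    rw [hν1]
    linear_combination (1 / 3) * h1 - (1 / 3) * h2
  have hu : ∀ a b : ℝ, 0 < a → u a b = u 1 0 + 1 / 2 * ν1 * (a ^ 2 - b ^ 2 - 1) - ν 0 * b := by
    have h0 : ∀ a b : ℝ, 0 < a → b ≠ 0 →
        u a b = u 1 0 + 1 / 2 * ν1 * (a ^ 2 - b ^ 2 - 1) - ν 0 * b := by
      intro a b ha hb
      have h1 := hid2 a b 1 0 ha one_pos
      rw [hν b] at h1
      have h2 : (2 * b) * u a b =
          (2 * b) * (u 1 0 + 1 / 2 * ν1 * (a ^ 2 - b ^ 2 - 1) - ν 0 * b) := by
        linear_combination h1
      exact mul_left_cancel₀ (by positivity) h2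
    intro a b ha
    by_cases hb : b = 0
    · subst hb
      have h1 := hid2 a 0 1 1 ha one_pos
      rw [hν 1, h0 1 1 one_pos one_ne_zero] at h1
      linear_combination (-1 / 2) * h1
    · exact h0 a b ha hb
  refine ⟨((1 / 2 * ν1 : ℝ) : ℂ), Complex.I * (ν 0 : ℂ), ((u 1 0 - 1 / 2 * ν1 : ℝ) : ℂ), ?_⟩
  intro z hz
  have hz' : 0 < z.re := hz
  have h1 : (g z).re = u z.re z.im := rfl
  have h2 : (g z).im = v z.re z.im := rfl
  apply Complex.ext
  · rw [h1, hu _ _ hz']
    simp only [Complex.add_re, Complex.mul_re, Complex.mul_im, Complex.ofReal_re, Complex.ofReal_im,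
      Complex.I_re, Complex.I_im, pow_two]
    ring
  · rw [h2, hv _ _ hz', hν]
    simp only [Complex.add_im, Complex.mul_re, Complex.mul_im, Complex.ofReal_re, Complex.ofReal_im,
      Complex.I_re, Complex.I_im, pow_two]
    ring

end Pool.Agent.Q184.BK
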