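import Mathlib
import Pool.Agent.Q184.BK.Slice

/-!
The rigidity statement in the coordinates of the bi-half-plane.
-/

set_option autoImplicit false

open Set Metric Filter Topology ComplexConjugate

namespace Pool.Agent.Q184.BK

/-- The product of two right half planes. -/
def H2 : Set (ℂ × ℂ) := {p | p.1 ∈ RH ∧ p.2 ∈ RH}

theorem H2_open : IsOpen H2 := (RH_open.preimage continuous_fst).inter (RH_open.preimage continuous_snd)

theorem natCast_RH {n : ℕ} (hn : 0 < n) : (n : ℂ) ∈ RH := by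
  show 0 < ((n : ℕ) : ℂ).re
  rw [Complex.natCast_re]
  exact_mod_cast hn

theorem tend_one {f : ℕ → ℝ} {K : ℝ} (h : ∀ᶠ n : ℕ in atTop, |f n - 1| ≤ K / n) :
    Tendsto f atTop (𝓝 1) := by
  rw [tendsto_iff_norm_sub_tendsto_zero]
  have h1 : Tendsto (fun n : ℕ => K / (n : ℝ)) atTop (𝓝 0) :=
    tendsto_const_nhds.div_atTop tendsto_natCast_atTop_atTop
  refine squeeze_zero' (Eventually.of_forall fun n => norm_nonneg _) ?_ h1
  filter_upwards [h] with n hn
  exact hn

theorem exists_disc (z0 w0 : ℂ) (hz0 : z0 ∈ RH) (hw0 : w0 ∈ RH) :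
    ∃ φ : ℂ → ℂ, DifferentiableOn ℂ φ RH ∧ MapsTo φ RH RH ∧ φ w0 = z0 ∧
      ∃ C : ℝ, 0 < C ∧ ∀ n : ℕ, 0 < n → ‖φ n - 1‖ ≤ C / n := by
  have hz0' : 0 < z0.re := hz0
  have hw0' : 0 < w0.re := hw0
  set c : ℂ := (z0 - 1) / (z0 + 1) with hc
  have hz1 : z0 + 1 ≠ 0 := by
    intro h
    have h1 := congrArg Complex.re h
    simp only [Complex.add_re, Complex.one_re, Complex.zero_re] at h1
    linarith
  have hcn : ‖c‖ < 1 := by
    rw [hc, norm_div, div_lt_one (norm_pos_iff.mpr hz1)]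
    have h1 := norm_add_conj_sq z0 1
    rw [map_one, Complex.one_re] at h1
    exact lt_of_pow_lt_pow_left₀ 2 (norm_nonneg _) (by nlinarith)
  -- choice of `N`
  obtain ⟨N, hN0, hN⟩ : ∃ N : ℕ, 0 < N ∧ ‖c‖ * (‖w0 + N‖ / N) < 1 := by
    have hratio : Tendsto (fun n : ℕ => ‖c‖ * (‖w0 + n‖ / n)) atTop (𝓝 (‖c‖ * 1)) := by
      apply Tendsto.const_mul
      have h1 : Tendsto (fun n : ℕ => ‖w0 * (1 / (n : ℂ)) + 1‖) atTop (𝓝 ‖w0 * 0 + 1‖) := by
        apply Tendsto.norm
        apply Tendsto.add_const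
        apply Tendsto.const_mul
        exact tendsto_one_div_atTop_nhds_zero_nat
      rw [mul_zero, zero_add, norm_one] at h1
      refine h1.congr' ?_
      filter_upwards [eventually_gt_atTop 0] with n hn
      have hn' : (n : ℂ) ≠ 0 := by exact_mod_cast hn.ne'
      have h2 : w0 * (1 / (n : ℂ)) + 1 = (w0 + n) / n := by field_simp
      rw [h2, norm_div, Complex.norm_natCast]
    rw [mul_one] at hratio
    obtain ⟨N, h1, h2⟩ := ((eventually_gt_atTop 0).and (hratio.eventually (gt_mem_nhds hcn))).exists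
    exact ⟨N, h1, h2⟩
  have hN' : (0 : ℝ) < N := by exact_mod_cast hN0
  set k : ℝ := ‖c‖ * (‖w0 + N‖ / N) with hk
  have hk0 : 0 ≤ k := by positivity
  have hwN : ∀ w ∈ RH, (N : ℝ) ≤ ‖w + N‖ := by
    intro w hw
    have hw' : 0 < w.re := hw
    have h1 := Complex.re_le_norm (w + N)
    rw [Complex.add_re, Complex.natCast_re] at h1
    linarith
  have hwN0 : ∀ w ∈ RH, w + N ≠ 0 := by
    intro w hw h
    have := hwN w hw
    rw [h, norm_zero] at this
    linarith
  let ψ : ℂ → ℂ := fun w => c * ((w0 + N) / (w + N))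
  have hψ : ∀ w ∈ RH, ‖ψ w‖ ≤ k := by
    intro w hw
    show ‖c * ((w0 + N) / (w + N))‖ ≤ k
    rw [norm_mul, norm_div (w0 + (N : ℂ)), hk]
    apply mul_le_mul_of_nonneg_left _ (norm_nonneg _)
    exact div_le_div_of_nonneg_left (norm_nonneg _) hN' (hwN w hw)
  have hψ1 : ∀ w ∈ RH, 1 - ψ w ≠ 0 := by
    intro w hw h
    have h1 : ψ w = 1 := by linear_combination -h
    have h2 := hψ w hw
    rw [h1, norm_one] at h2
    linarith
  have hψd : DifferentiableOn ℂ ψ RH := by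
    intro w hw
    have := hwN0 w hw
    apply DifferentiableAt.differentiableWithinAt
    fun_prop (disch := exact this)
  refine ⟨fun w => (1 + ψ w) / (1 - ψ w), ?_, ?_, ?_, 2 * (‖c‖ * ‖w0 + N‖) / (1 - k) + 1, ?_, ?_⟩
  · exact (hψd.const_add 1).div (hψd.const_sub 1) hψ1
  · intro w hw
    have h1 := hψ1 w hw
    show 0 < ((1 + ψ w) / (1 - ψ w)).re
    have h2 : 0 < ‖1 - ψ w‖ ^ 2 := by
      have := norm_pos_iff.mpr h1
      positivity
    have h3 := re_div_mul (1 + ψ w) (1 - ψ w) h1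
    have h4 : ((1 + ψ w) * conj (1 - ψ w)).re = 1 - ‖ψ w‖ ^ 2 := by
      rw [← Complex.normSq_eq_norm_sq]
      simp only [Complex.normSq_apply, Complex.mul_re, Complex.add_re, Complex.add_im, map_sub,
        map_one, Complex.sub_re, Complex.sub_im, Complex.conj_re, Complex.conj_im, Complex.one_re,
        Complex.one_im]
      ring
    rw [h4] at h3
    have h5 := hψ w hw
    have h6 : 0 < 1 - ‖ψ w‖ ^ 2 := by nlinarith [norm_nonneg (ψ w)]
    rw [← h3] at h6
    exact (mul_pos_iff_of_pos_left h2).mp h6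
  · have h1 : ψ w0 = c := by
      show c * ((w0 + N) / (w0 + N)) = c
      rw [div_self (hwN0 w0 hw0), mul_one]
    show (1 + ψ w0) / (1 - ψ w0) = z0
    rw [h1, hc]
    have h2 : (1 : ℂ) - (z0 - 1) / (z0 + 1) = 2 / (z0 + 1) := by field_simp; ring
    have h3 : (1 : ℂ) + (z0 - 1) / (z0 + 1) = 2 * z0 / (z0 + 1) := by field_simp; ring
    rw [h2, h3]
    field_simp
  · have : 0 < 1 - k := by linarith
    positivity
  · intro n hn
    have hnR := natCast_RH hn
    have hn' : (0 : ℝ) < n := by exact_mod_cast hn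
    have h1 := hψ1 n hnR
    have h2 : (1 + ψ n) / (1 - ψ n) - 1 = 2 * ψ n / (1 - ψ n) := by field_simp; ring
    show ‖(1 + ψ n) / (1 - ψ n) - 1‖ ≤ _
    rw [h2, norm_div, norm_mul]
    have h3 : ‖ψ n‖ ≤ ‖c‖ * ‖w0 + N‖ / n := by
      show ‖c * ((w0 + N) / (n + N))‖ ≤ _
      rw [norm_mul, norm_div (w0 + (N : ℂ)), mul_div_assoc]
      apply mul_le_mul_of_nonneg_left _ (norm_nonneg _)
      apply div_le_div_of_nonneg_left (norm_nonneg _) hn'
      have h4 : ‖(n : ℂ) + N‖ = n + N := by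
        have : ((n : ℂ) + N) = ((n + N : ℕ) : ℂ) := by push_cast; ring
        rw [this, Complex.norm_natCast]
        push_cast
        ring
      rw [h4]
      linarith
    have h4 : 1 - k ≤ ‖1 - ψ n‖ := by
      have h5 := norm_sub_norm_le (1 : ℂ) (ψ n)
      rw [norm_one] at h5
      have h6 := hψ n hnR
      linarith
    have h5 : 0 < 1 - k := by linarith
    have h6 : ‖(2 : ℂ)‖ = 2 := by simp
    rw [h6]
    calc 2 * ‖ψ n‖ / ‖1 - ψ n‖ ≤ 2 * (‖c‖ * ‖w0 + N‖ / n) / (1 - k) := by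
          apply div_le_div₀ (by positivity) (by linarith) h5 h4
      _ = (2 * (‖c‖ * ‖w0 + N‖) / (1 - k)) / n := by field_simp
      _ ≤ (2 * (‖c‖ * ‖w0 + N‖) / (1 - k) + 1) / n := by
          apply div_le_div_of_nonneg_right _ hn'.le
          linarith

/-! ### Quadratic polynomials with limits -/

theorem quad_zero {a b c : ℂ} (h : Tendsto (fun n : ℕ => a + b * n + c * (n : ℂ) ^ 2) atTop (𝓝 0)) :
    a = 0 ∧ b = 0 ∧ c = 0 := by
  have hn1 : Tendsto (fun n : ℕ => 1 / (n : ℂ)) atTop (𝓝 0) := tendsto_one_div_atTop_nhds_zero_nat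
  have hc : c = 0 := by
    have h1 := (h.mul hn1).mul hn1
    have h2 : Tendsto (fun n : ℕ => (a * (1 / (n : ℂ)) + b) * (1 / (n : ℂ)) + c) atTop
        (𝓝 ((a * 0 + b) * 0 + c)) := (((hn1.const_mul a).add_const b).mul hn1).add_const c
    have h3 : Tendsto (fun n : ℕ => (a * (1 / (n : ℂ)) + b) * (1 / (n : ℂ)) + c) atTop
        (𝓝 (0 * 0 * 0)) := by
      refine h1.congr' ?_
      filter_upwards [eventually_gt_atTop 0] with n hn
      have hn' : (n : ℂ) ≠ 0 := by exact_mod_cast hn.ne'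
      field_simp
    have h4 := tendsto_nhds_unique h2 h3
    simpa using h4
  subst hc
  have hb : b = 0 := by
    have h1 := h.mul hn1
    have h2 : Tendsto (fun n : ℕ => a * (1 / (n : ℂ)) + b) atTop (𝓝 (a * 0 + b)) :=
      (hn1.const_mul a).add_const b
    have h3 : Tendsto (fun n : ℕ => a * (1 / (n : ℂ)) + b) atTop (𝓝 (0 * 0)) := by
      refine h1.congr' ?_
      filter_upwards [eventually_gt_atTop 0] with n hn
      have hn' : (n : ℂ) ≠ 0 := by exact_mod_cast hn.ne'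
      field_simp
      ring
    have h4 := tendsto_nhds_unique h2 h3
    simpa using h4
  subst hb
  refine ⟨?_, rfl, rfl⟩
  have h1 : Tendsto (fun _ : ℕ => a) atTop (𝓝 0) := by
    refine h.congr ?_
    intro n
    ring
  exact tendsto_nhds_unique tendsto_const_nhds h1

theorem quad_div {a b c : ℂ}
    (h : Tendsto (fun n : ℕ => (a + b * n + c * (n : ℂ) ^ 2) / n) atTop (𝓝 0)) :
    b = 0 ∧ c = 0 := by
  have hn1 : Tendsto (fun n : ℕ => 1 / (n : ℂ)) atTop (𝓝 0) := tendsto_one_div_atTop_nhds_zero_nat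
  have h1 : Tendsto (fun n : ℕ => b + c * n + 0 * (n : ℂ) ^ 2) atTop (𝓝 0) := by
    have h2 := h.sub (hn1.const_mul a)
    rw [mul_zero, sub_zero] at h2
    refine h2.congr' ?_
    filter_upwards [eventually_gt_atTop 0] with n hn
    have hn' : (n : ℂ) ≠ 0 := by exact_mod_cast hn.ne'
    field_simp
    ring
  have h3 := quad_zero h1
  exact ⟨h3.1, h3.2.1⟩

/-! ### The hypotheses -/

/-- The data `(Sg, T)` of the sum and the product of the two images. -/
structure Data (Sg T : ℂ × ℂ → ℂ) : Prop where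
  hS : DifferentiableOn ℂ Sg H2
  hT : DifferentiableOn ℂ T H2
  symS : ∀ x ∈ RH, ∀ y ∈ RH, Sg (x, y) = Sg (y, x)
  symT : ∀ x ∈ RH, ∀ y ∈ RH, T (x, y) = T (y, x)
  hR : ∀ x ∈ RH, ∀ y ∈ RH, ∃ R1 ∈ RH, ∃ R2 ∈ RH, R1 + R2 = Sg (x, y) ∧ R1 * R2 = T (x, y)
  hc : ∀ C : ℝ, 0 < C → ∀ ε : ℝ, 0 < ε → ∀ᶠ n : ℕ in atTop, ∀ x ∈ RH, ‖x - 1‖ ≤ C / n →
    ‖Sg (x, n) - (x + n)‖ * n ≤ ε ∧ ‖T (x, n) - x * n‖ * n ≤ ε

section data

variable {Sg T : ℂ × ℂ → ℂ}

theorem Data.pos (D : Data Sg T) {x y : ℂ} (hx : x ∈ RH) (hy : y ∈ RH) : 0 ≤ (Sg (x, y)).re := by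
  obtain ⟨R1, h1, R2, h2, hs, _⟩ := D.hR x hx y hy
  have h1' : 0 < R1.re := h1
  have h2' : 0 < R2.re := h2
  rw [← hs, Complex.add_re]
  linarith

/-- `Re Sg (x, y) ≥ Re y`. -/
theorem Data.one (D : Data Sg T) {x y : ℂ} (hx : x ∈ RH) (hy : y ∈ RH) :
    y.re ≤ (Sg (x, y)).re := by
  obtain ⟨φ, hφd, hφm, hφ0, C, hC, hφC⟩ := exists_disc x y hx hy
  have hmaps : MapsTo (fun w => (φ w, w)) RH H2 := fun w hw => ⟨hφm hw, hw⟩
  have hgd : DifferentiableOn ℂ (fun w => Sg (φ w, w)) RH :=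
    D.hS.comp (hφd.prodMk differentiableOn_id) hmaps
  have h := julia (fun w => Sg (φ w, w)) hgd (fun w hw => D.pos (hφm hw) hw) (by
    apply tend_one (K := C + 2)
    filter_upwards [D.hc C hC 1 one_pos, eventually_gt_atTop 0] with n hn hn0
    have hn' : (0 : ℝ) < n := by exact_mod_cast hn0
    have hn1 : (1 : ℝ) ≤ n := by exact_mod_cast hn0
    have h1 := (hn (φ n) (hφm (natCast_RH hn0)) (hφC n hn0)).1
    have h2 := hφC n hn0
    have h3 : ‖Sg (φ n, n) - (φ n + n)‖ ≤ 1 := by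
      nlinarith [norm_nonneg (Sg (φ n, n) - (φ n + n))]
    have h4 : ‖φ n‖ ≤ C + 1 := by
      have h5 := norm_add_le (φ n - 1) 1
      rw [sub_add_cancel, norm_one] at h5
      have h6 : C / n ≤ C := div_le_self hC.le hn1
      linarith
    have h5 : |(Sg (φ n, n)).re / n - 1| = |(Sg (φ n, n) - n).re| / n := by
      rw [Complex.sub_re, Complex.natCast_re, ← abs_of_pos hn', ← abs_div, abs_of_pos hn']
      congr 1
      field_simp
    rw [h5]
    apply div_le_div_of_nonneg_right _ hn'.le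
    refine (Complex.abs_re_le_norm _).trans ?_
    have h6 : Sg (φ n, n) - n = (Sg (φ n, n) - (φ n + n)) + φ n := by ring
    rw [h6]
    refine (norm_add_le _ _).trans ?_
    linarith) y hy
  simp only [hφ0] at h
  exact h

/-- `Re Sg (x, y) ≥ Re x + Re y`. -/
theorem Data.two (D : Data Sg T) {x y : ℂ} (hx : x ∈ RH) (hy : y ∈ RH) :
    x.re + y.re ≤ (Sg (x, y)).re := by
  obtain ⟨φ, hφd, hφm, hφ0, C, hC, hφC⟩ := exists_disc y x hy hx
  have hmaps : MapsTo (fun w => (w, φ w)) RH H2 := fun w hw => ⟨hw, hφm hw⟩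
  have hgd : DifferentiableOn ℂ (fun w => Sg (w, φ w) - φ w) RH :=
    (D.hS.comp (differentiableOn_id.prodMk hφd) hmaps).sub hφd
  have h := julia (fun w => Sg (w, φ w) - φ w) hgd (fun w hw => by
      have := D.one hw (hφm hw)
      rw [Complex.sub_re]
      linarith) (by
    apply tend_one (K := 1)
    filter_upwards [D.hc C hC 1 one_pos, eventually_gt_atTop 0] with n hn hn0
    have hn' : (0 : ℝ) < n := by exact_mod_cast hn0
    have hn1 : (1 : ℝ) ≤ n := by exact_mod_cast hn0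
    have h1 := (hn (φ n) (hφm (natCast_RH hn0)) (hφC n hn0)).1
    have h3 : ‖Sg (φ n, n) - (φ n + n)‖ ≤ 1 := by
      nlinarith [norm_nonneg (Sg (φ n, n) - (φ n + n))]
    rw [D.symS n (natCast_RH hn0) (φ n) (hφm (natCast_RH hn0))]
    have h5 : |(Sg (φ n, n) - φ n).re / n - 1| = |(Sg (φ n, n) - (φ n + n)).re| / n := by
      rw [Complex.sub_re, Complex.sub_re, Complex.add_re, Complex.natCast_re, ← abs_of_pos hn',
        ← abs_div, abs_of_pos hn']
      congr 1
      field_simp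
      ring
    rw [h5]
    apply div_le_div_of_nonneg_right _ hn'.le
    exact (Complex.abs_re_le_norm _).trans h3) x hx
  simp only [hφ0, Complex.sub_re] at h
  linarith

/-- The sum is preserved. -/
theorem Data.sum_eq (D : Data Sg T) {x y : ℂ} (hx : x ∈ RH) (hy : y ∈ RH) :
    Sg (x, y) = x + y := by
  have h1R : (1 : ℂ) ∈ RH := by
    show 0 < (1 : ℂ).re
    simp
  let h : ℂ → ℂ → ℂ := fun x y => Sg (x, y) - x - y
  have hpos : ∀ x ∈ RH, ∀ y ∈ RH, 0 ≤ (h x y).re := by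
    intro x hx y hy
    have := D.two hx hy
    simp only [h, Complex.sub_re]
    linarith
  have hd1 : ∀ y ∈ RH, DifferentiableOn ℂ (fun x => h x y) RH := by
    intro y hy
    have : DifferentiableOn ℂ (fun x => Sg (x, y)) RH :=
      D.hS.comp (f := fun x : ℂ => (x, y)) (differentiableOn_id.prodMk (differentiableOn_const _))
        (fun x hx => ⟨hx, hy⟩)
    exact (this.sub differentiableOn_id).sub (differentiableOn_const _)
  have hd2 : DifferentiableOn ℂ (fun y => h 1 y) RH := by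
    have : DifferentiableOn ℂ (fun y => Sg (1, y)) RH :=
      D.hS.comp (f := fun y : ℂ => ((1 : ℂ), y)) ((differentiableOn_const _).prodMk differentiableOn_id)
        (fun y hy => ⟨h1R, hy⟩)
    exact (this.sub (differentiableOn_const _)).sub differentiableOn_id
  have hcon : ∀ ε : ℝ, 0 < ε → ∀ᶠ n : ℕ in atTop, ‖h 1 n‖ * n ≤ ε := by
    intro ε hε
    filter_upwards [D.hc 1 one_pos ε hε, eventually_gt_atTop 0] with n hn hn0
    have h1 := (hn 1 h1R (by simp)).1
    have h2 : h 1 n = Sg (1, n) - (1 + n) := by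
      simp only [h]; ring
    rw [h2]
    exact h1
  have hzero : ∀ y ∈ RH, (h 1 y).re = 0 := by
    intro y hy
    refine hopf (fun y => h 1 y) hd2 (fun w hw => hpos 1 h1R w hw) ?_ y hy
    rw [Metric.tendsto_atTop']
    intro ε hε
    obtain ⟨N, hN⟩ := eventually_atTop.mp (hcon (ε / 2) (by positivity))
    refine ⟨N, fun n hn => ?_⟩
    have h1 := hN n hn.le
    rw [dist_zero_right, norm_mul, Real.norm_eq_abs, Real.norm_natCast]
    have h2 : |(h 1 n).re| * n ≤ ‖h 1 n‖ * n :=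
      mul_le_mul_of_nonneg_right (Complex.abs_re_le_norm _) (Nat.cast_nonneg n)
    linarith
  have hconst : ∀ x ∈ RH, ∀ y ∈ RH, h x y = h 1 y := by
    intro x hx y hy
    exact const_of_zero (fun x => h x y) (hd1 y hy) (fun w hw => hpos w hw y hy) x 1 hx h1R
      (hzero y hy)
  have hsym : ∀ x ∈ RH, ∀ y ∈ RH, h x y = h y x := by
    intro x hx y hy
    simp only [h]
    rw [D.symS x hx y hy]
    ring
  have hall : ∀ y ∈ RH, h 1 y = h 1 1 := by
    intro y hy
    rw [hsym 1 h1R y hy]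
    exact hconst y hy 1 h1R
  have h0 : h 1 1 = 0 := by
    by_contra hne
    have hp : 0 < ‖h 1 1‖ := norm_pos_iff.mpr hne
    obtain ⟨n, hn, hn0⟩ := ((hcon (‖h 1 1‖ / 2) (by positivity)).and (eventually_gt_atTop 0)).exists
    rw [hall n (natCast_RH hn0)] at hn
    have hn1 : (1 : ℝ) ≤ n := by exact_mod_cast hn0
    nlinarith
  have hfin : h x y = 0 := by rw [hconst x hx y hy, hall y hy, h0]
  simp only [h] at hfin
  linear_combination hfin

end data

end Pool.Agent.Q184.BK
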