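import Mathlib
import Pool.Agent.Q184.BK.HH

/-!
The product is preserved.
-/

set_option autoImplicit false

open Set Metric Filter Topology ComplexConjugate

namespace Pool.Agent.Q184.BK

theorem RH_convex : Convex ℝ RH := convex_halfSpace_re_gt 0

theorem RH_preconnected : IsPreconnected RH := RH_convex.isPreconnected

/-- identity theorem on the half plane: zeros along a vertical segment -/
theorem ident_vert (F : ℂ → ℂ) (hF : DifferentiableOn ℂ F RH) (c : ℝ) (hc : 0 < c)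
    (h0 : ∀ x ∈ RH, x.re = c → F x = 0) : ∀ x ∈ RH, F x = 0 := by
  have hcR : (c : ℂ) ∈ RH := by
    show 0 < (c : ℂ).re
    simpa using hc
  have han : AnalyticOnNhd ℂ F RH := hF.analyticOnNhd RH_open
  have hfr : ∃ᶠ x in 𝓝[≠] (c : ℂ), F x = 0 := by
    have hseq : Tendsto (fun n : ℕ => (c : ℂ) + Complex.I * (1 / ((n : ℂ) + 1))) atTop
        (𝓝[≠] (c : ℂ)) := by
      rw [tendsto_nhdsWithin_iff]
      constructor
      · have h1 := (tendsto_one_div_add_atTop_nhds_zero_nat (𝕜 := ℂ)).const_mul Complex.I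
        have h2 := h1.const_add (c : ℂ)
        simpa using h2
      · refine Eventually.of_forall fun n => ?_
        intro h
        have h1 : Complex.I * (1 / ((n : ℂ) + 1)) = 0 := by
          have h2 : (c : ℂ) + Complex.I * (1 / ((n : ℂ) + 1)) = c := h
          linear_combination h2
        have h3 : (n : ℂ) + 1 ≠ 0 := by exact_mod_cast Nat.succ_ne_zero n
        rcases mul_eq_zero.mp h1 with h4 | h4
        · exact Complex.I_ne_zero h4
        · exact (one_div_ne_zero h3) h4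
    refine hseq.frequently ?_
    refine (Eventually.of_forall fun n => ?_).frequently
    have hre : ((c : ℂ) + Complex.I * (1 / ((n : ℂ) + 1))).re = c := by
      have : (1 / ((n : ℂ) + 1)) = ((1 / ((n : ℝ) + 1) : ℝ) : ℂ) := by push_cast; ring
      rw [this]
      simp
    apply h0 _ _ hre
    show 0 < ((c : ℂ) + Complex.I * (1 / ((n : ℂ) + 1))).re
    rw [hre]
    exact hc
  have h := han.eqOn_zero_of_preconnected_of_frequently_eq_zero RH_preconnected hcR hfr
  intro x hx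
  exact h hx

/-- identity theorem on the half plane: zeros along a horizontal half line -/
theorem ident_hor (F : ℂ → ℂ) (hF : DifferentiableOn ℂ F RH)
    (h0 : ∀ r : ℝ, 1 ≤ r → F r = 0) : ∀ x ∈ RH, F x = 0 := by
  have hcR : ((2 : ℝ) : ℂ) ∈ RH := by
    show 0 < ((2 : ℝ) : ℂ).re
    simp
  have han : AnalyticOnNhd ℂ F RH := hF.analyticOnNhd RH_open
  have hfr : ∃ᶠ x in 𝓝[≠] ((2 : ℝ) : ℂ), F x = 0 := by
    have hseq : Tendsto (fun n : ℕ => ((2 : ℝ) : ℂ) + (1 / ((n : ℂ) + 1))) atTop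
        (𝓝[≠] ((2 : ℝ) : ℂ)) := by
      rw [tendsto_nhdsWithin_iff]
      constructor
      · have h1 := (tendsto_one_div_add_atTop_nhds_zero_nat (𝕜 := ℂ))
        have h2 := h1.const_add ((2 : ℝ) : ℂ)
        simpa using h2
      · refine Eventually.of_forall fun n => ?_
        intro h
        have h1 : (1 / ((n : ℂ) + 1)) = 0 := by
          have h2 : ((2 : ℝ) : ℂ) + (1 / ((n : ℂ) + 1)) = ((2 : ℝ) : ℂ) := h
          linear_combination h2
        have h3 : (n : ℂ) + 1 ≠ 0 := by exact_mod_cast Nat.succ_ne_zero n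
        exact (one_div_ne_zero h3) h1
    refine hseq.frequently ?_
    refine (Eventually.of_forall fun n => ?_).frequently
    have hre : ((2 : ℝ) : ℂ) + (1 / ((n : ℂ) + 1)) = ((2 + 1 / ((n : ℝ) + 1) : ℝ) : ℂ) := by
      push_cast; ring
    rw [hre]
    apply h0
    have : 0 < 1 / ((n : ℝ) + 1) := by positivity
    linarith
  have h := han.eqOn_zero_of_preconnected_of_frequently_eq_zero RH_preconnected hcR hfr
  intro x hx
  exact h hx

section data

variable {Sg T : ℂ × ℂ → ℂ}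

/-- Lagrange interpolation along a slice. -/
theorem Data.lag1 (D : Data Sg T) {θ : ℝ} (h0 : 0 < θ) (h1 : θ < 1) {x y : ℂ} (hx : x ∈ RH)
    (hy : y ∈ RH) (hxy : (1 - θ) * x.re = θ * y.re) {r : ℝ} (hr : 0 ≤ r) :
    T (x + r * θ, y + r * (1 - θ)) = T (x, y) * ((r - 1) * (r - 2) / 2) -
      T (x + θ, y + (1 - θ)) * (r * (r - 2)) + T (x + 2 * θ, y + 2 * (1 - θ)) * (r * (r - 1) / 2) := by
  have hx' : 0 < x.re := hx
  have hy' : 0 < y.re := hy
  -- the slice
  let s : ℝ := x.im - θ * (x.im + y.im)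
  let g : ℂ → ℂ := fun z => T (θ * z + s * Complex.I, (1 - θ) * z - s * Complex.I)
  have hm : ∀ z ∈ RH, (θ * z + s * Complex.I : ℂ) ∈ RH ∧ ((1 - θ) * z - s * Complex.I : ℂ) ∈ RH := by
    intro z hz
    have hz' : 0 < z.re := hz
    constructor
    · show 0 < (θ * z + s * Complex.I : ℂ).re
      simp
      positivity
    · show 0 < ((1 - θ) * z - s * Complex.I : ℂ).re
      have : ((1 : ℂ) - θ) = ((1 - θ : ℝ) : ℂ) := by push_cast; ring
      rw [this]
      simp
      exact mul_pos (by linarith) hz'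
  have hgd : DifferentiableOn ℂ g RH := by
    refine D.hT.comp (f := fun z : ℂ => (θ * z + s * Complex.I, (1 - θ) * z - s * Complex.I)) ?_ ?_
    · fun_prop
    · intro z hz
      exact hm z hz
  have hgR : ∀ z ∈ RH, ∃ R1 ∈ RH, ∃ R2 ∈ RH, R1 + R2 = z ∧ R1 * R2 = g z := by
    intro z hz
    obtain ⟨R1, h2, R2, h3, hs, hp⟩ := D.hR _ (hm z hz).1 _ (hm z hz).2
    refine ⟨R1, h2, R2, h3, ?_, hp⟩
    rw [hs, D.sum_eq (hm z hz).1 (hm z hz).2]
    ring
  obtain ⟨p, q, w, hpq⟩ := slice g hgd hgR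
  have hsm : x + y ∈ RH := by
    show 0 < (x + y).re
    rw [Complex.add_re]; linarith
  have hshift : ∀ t : ℝ, 0 ≤ t → T (x + t * θ, y + t * (1 - θ)) =
      p * (x + y + t) ^ 2 + q * (x + y + t) + w := by
    intro t ht
    have ht' : x + y + t ∈ RH := by
      show 0 < (x + y + t).re
      rw [Complex.add_re, Complex.add_re, Complex.ofReal_re]; linarith
    rw [← hpq _ ht']
    show T (x + t * θ, y + t * (1 - θ)) = T (θ * (x + y + t) + s * Complex.I,
      (1 - θ) * (x + y + t) - s * Complex.I)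
    have e1 : x + t * θ = θ * (x + y + t) + s * Complex.I := by
      apply Complex.ext
      · simp
        linarith
      · simp [s]
    have e2 : y + t * (1 - θ) = (1 - θ) * (x + y + t) - s * Complex.I := by
      linear_combination -e1
    rw [e1, e2]
  have a0 := hshift 0 le_rfl
  have a1 := hshift 1 zero_le_one
  have a2 := hshift 2 zero_le_two
  have ar := hshift r hr
  simp only [Complex.ofReal_zero, zero_mul, add_zero, Complex.ofReal_one, one_mul,
    Complex.ofReal_ofNat] at a0 a1 a2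
  rw [ar, a0, a1, a2]
  ring

/-- The same without the condition on the base point. -/
theorem Data.lag2 (D : Data Sg T) {θ : ℝ} (h0 : 0 < θ) (h1 : θ < 1) {x y : ℂ} (hx : x ∈ RH)
    (hy : y ∈ RH) {r : ℝ} (hr : 0 ≤ r) :
    T (x + r * θ, y + r * (1 - θ)) = T (x, y) * ((r - 1) * (r - 2) / 2) -
      T (x + θ, y + (1 - θ)) * (r * (r - 2)) + T (x + 2 * θ, y + 2 * (1 - θ)) * (r * (r - 1) / 2) := by
  have hy' : 0 < y.re := hy
  have hθ : 0 < 1 - θ := by linarith
  have hmx : ∀ t : ℝ, 0 ≤ t → ∀ x ∈ RH, x + t * θ ∈ RH := by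
    intro t ht x hx
    have hx' : 0 < x.re := hx
    show 0 < (x + t * θ).re
    simp
    positivity
  have hmy : ∀ t : ℝ, 0 ≤ t → y + t * (1 - θ) ∈ RH := by
    intro t ht
    show 0 < (y + t * (1 - θ)).re
    have : ((1 : ℂ) - θ) = ((1 - θ : ℝ) : ℂ) := by push_cast; ring
    rw [this]
    simp
    positivity
  have hd : ∀ t : ℝ, 0 ≤ t → DifferentiableOn ℂ (fun x => T (x + t * θ, y + t * (1 - θ))) RH := by
    intro t ht
    refine D.hT.comp (f := fun x : ℂ => (x + t * θ, y + t * (1 - θ))) ?_ ?_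
    · fun_prop
    · intro x hx
      exact ⟨hmx t ht x hx, hmy t ht⟩
  have hd0 := hd 0 le_rfl
  have hd1 := hd 1 zero_le_one
  have hd2 := hd 2 zero_le_two
  simp only [Complex.ofReal_zero, zero_mul, add_zero, Complex.ofReal_one, one_mul,
    Complex.ofReal_ofNat] at hd0 hd1 hd2
  have hF := ident_vert (fun x => T (x + r * θ, y + r * (1 - θ)) -
    (T (x, y) * ((r - 1) * (r - 2) / 2) - T (x + θ, y + (1 - θ)) * (r * (r - 2)) +
      T (x + 2 * θ, y + 2 * (1 - θ)) * (r * (r - 1) / 2)))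
    ((hd r hr).sub (((hd0.mul_const _).sub (hd1.mul_const _)).add (hd2.mul_const _)))
    (θ * y.re / (1 - θ)) (by positivity) (by
      intro x hx hre
      have h2 := D.lag1 h0 h1 hx hy (by rw [hre]; field_simp) hr
      rw [h2]
      ring) x hx
  linear_combination hF

/-- The limit `θ → 0`. -/
theorem Data.lag3 (D : Data Sg T) {x y : ℂ} (hx : x ∈ RH) (hy : y ∈ RH) {r : ℝ} (hr : 0 ≤ r) :
    T (x, y + r) = T (x, y) * ((r - 1) * (r - 2) / 2) - T (x, y + 1) * (r * (r - 2)) +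
      T (x, y + 2) * (r * (r - 1) / 2) := by
  have hy' : 0 < y.re := hy
  have hlim : ∀ t : ℝ, 0 ≤ t → Tendsto (fun θ : ℝ => T (x + t * θ, y + t * (1 - θ))) (𝓝[>] 0)
      (𝓝 (T (x, y + t))) := by
    intro t ht
    have hp : (x, y + (t : ℂ)) ∈ H2 := by
      refine ⟨hx, ?_⟩
      show 0 < (y + (t : ℂ)).re
      rw [Complex.add_re, Complex.ofReal_re]; linarith
    have hcont : ContinuousAt T (x, y + (t : ℂ)) :=
      (D.hT.differentiableAt (H2_open.mem_nhds hp)).continuousAt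
    have h1 : Tendsto (fun θ : ℝ => ((x + t * θ, y + t * (1 - θ)) : ℂ × ℂ)) (𝓝[>] 0)
        (𝓝 (x, y + (t : ℂ))) := by
      apply tendsto_nhdsWithin_of_tendsto_nhds
      have h2 : Continuous (fun θ : ℝ => ((x + t * θ, y + t * (1 - θ)) : ℂ × ℂ)) := by fun_prop
      have h3 := h2.tendsto 0
      simpa using h3
    exact hcont.tendsto.comp h1
  have l0 := hlim 0 le_rfl
  have l1 := hlim 1 zero_le_one
  have l2 := hlim 2 zero_le_two
  have lr := hlim r hr
  simp only [Complex.ofReal_zero, zero_mul, add_zero, Complex.ofReal_one, one_mul,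
    Complex.ofReal_ofNat] at l0 l1 l2
  have hR := ((l0.mul_const (((r : ℂ) - 1) * (r - 2) / 2)).sub
    (l1.mul_const ((r : ℂ) * (r - 2)))).add (l2.mul_const ((r : ℂ) * (r - 1) / 2))
  refine tendsto_nhds_unique lr (hR.congr' ?_)
  have hev : ∀ᶠ θ : ℝ in 𝓝[>] 0, θ ∈ Ioo (0 : ℝ) 1 := Ioo_mem_nhdsGT one_pos
  filter_upwards [hev] with θ hθ
  exact (D.lag2 hθ.1 hθ.2 hx hy hr).symm

/-- `T` is a quadratic polynomial in the second variable. -/
theorem Data.lag4 (D : Data Sg T) {x y : ℂ} (hx : x ∈ RH) (hy : y ∈ RH) :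
    T (x, y) = T (x, 1) * ((y - 2) * (y - 3) / 2) - T (x, 2) * ((y - 1) * (y - 3)) +
      T (x, 3) * ((y - 1) * (y - 2) / 2) := by
  have h1R : (1 : ℂ) ∈ RH := by
    show 0 < (1 : ℂ).re
    simp
  have hd : DifferentiableOn ℂ (fun y => T (x, y)) RH :=
    D.hT.comp (f := fun y : ℂ => (x, y)) ((differentiableOn_const _).prodMk differentiableOn_id)
      (fun y hy => ⟨hx, hy⟩)
  have hF := ident_hor (fun y => T (x, y) - (T (x, 1) * ((y - 2) * (y - 3) / 2) -
    T (x, 2) * ((y - 1) * (y - 3)) + T (x, 3) * ((y - 1) * (y - 2) / 2))) (by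
      apply hd.sub
      fun_prop) (by
      intro r hr
      have h2 := D.lag3 hx h1R (r := r - 1) (by linarith)
      have e1 : (1 : ℂ) + ((r - 1 : ℝ) : ℂ) = r := by push_cast; ring
      have e2 : (1 : ℂ) + 1 = 2 := by norm_num
      have e3 : (1 : ℂ) + 2 = 3 := by norm_num
      rw [e1, e2, e3] at h2
      push_cast at h2
      rw [h2]
      ring) y hy
  linear_combination hF

/-- The product is preserved. -/
theorem Data.prod_eq (D : Data Sg T) {x y : ℂ} (hx : x ∈ RH) (hy : y ∈ RH) :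
    T (x, y) = x * y := by
  have h1R : (1 : ℂ) ∈ RH := natCast_RH (n := 1) one_pos |> fun h => by simpa using h
  have h2R : (2 : ℂ) ∈ RH := natCast_RH (n := 2) two_pos |> fun h => by simpa using h
  have h3R : (3 : ℂ) ∈ RH := natCast_RH (n := 3) three_pos |> fun h => by simpa using h
  -- the coefficients with respect to `x - 1`
  let a0 : ℂ → ℂ := fun y => T (1, y)
  let a1 : ℂ → ℂ := fun y => -3 / 2 * T (1, y) + 2 * T (2, y) - 1 / 2 * T (3, y)
  let a2 : ℂ → ℂ := fun y => 1 / 2 * T (1, y) - T (2, y) + 1 / 2 * T (3, y)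
  have hTx : ∀ x ∈ RH, ∀ y ∈ RH, T (x, y) = a0 y + a1 y * (x - 1) + a2 y * (x - 1) ^ 2 := by
    intro x hx y hy
    have h := D.lag4 hy hx
    rw [D.symT y hy x hx, D.symT y hy 1 h1R, D.symT y hy 2 h2R, D.symT y hy 3 h3R] at h
    rw [h]
    simp only [a0, a1, a2]
    ring
  -- quadratic polynomials in `y`
  have hquad : ∀ x ∈ RH, ∃ p q r : ℂ, ∀ y ∈ RH, T (x, y) = p + q * y + r * y ^ 2 := by
    intro x hx
    refine ⟨3 * T (x, 1) - 3 * T (x, 2) + T (x, 3),
      -5 / 2 * T (x, 1) + 4 * T (x, 2) - 3 / 2 * T (x, 3),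
      1 / 2 * T (x, 1) - T (x, 2) + 1 / 2 * T (x, 3), fun y hy => ?_⟩
    rw [D.lag4 hx hy]
    ring
  obtain ⟨p1, q1, r1, e1⟩ := hquad 1 h1R
  obtain ⟨p2, q2, r2, e2⟩ := hquad 2 h2R
  obtain ⟨p3, q3, r3, e3⟩ := hquad 3 h3R
  have hlim0 : ∀ (t : ℂ), ‖t‖ ≤ 1 → Tendsto (fun n : ℕ => (a0 n + a1 n * (t / n) +
      a2 n * (t / n) ^ 2 - (1 + t / n) * n) * n) atTop (𝓝 0) := by
    intro t ht
    rw [Metric.tendsto_atTop']
    intro ε hε
    obtain ⟨N, hN⟩ := eventually_atTop.mp ((D.hc 1 one_pos (ε / 2) (by positivity)).and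
      (eventually_gt_atTop 1))
    refine ⟨N, fun n hn => ?_⟩
    obtain ⟨h1, h2⟩ := hN n hn.le
    have hn0 : 0 < n := by omega
    have hn1 : (1 : ℝ) < n := by exact_mod_cast h2
    have hnC : (n : ℂ) ≠ 0 := by exact_mod_cast hn0.ne'
    have htn : ‖t / n‖ ≤ 1 / n := by
      rw [norm_div, Complex.norm_natCast]
      exact div_le_div_of_nonneg_right ht (by positivity)
    have hxR : (1 + t / n : ℂ) ∈ RH := by
      show 0 < (1 + t / n : ℂ).re
      have h3 := Complex.abs_re_le_norm (t / n)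
      have h4 : 1 / (n : ℝ) < 1 := by rw [div_lt_one (by linarith)]; exact hn1
      have h5 := neg_abs_le (t / n).re
      rw [Complex.add_re, Complex.one_re]
      linarith
    have h3 := (h1 (1 + t / n) hxR (by rw [add_sub_cancel_left]; exact htn)).2
    rw [hTx _ hxR n (natCast_RH hn0), add_sub_cancel_left] at h3
    rw [dist_zero_right, norm_mul, Complex.norm_natCast]
    linarith
  -- the three limits
  have t0 := hlim0 0 (by simp)
  have t1 := hlim0 1 (by simp)
  have t2 := hlim0 (-1) (by simp)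
  have hev : ∀ᶠ n : ℕ in atTop, (n : ℂ) ≠ 0 ∧ a0 n = p1 + q1 * n + r1 * (n : ℂ) ^ 2 ∧
      a1 n = (-3 / 2 * p1 + 2 * p2 - 1 / 2 * p3) + (-3 / 2 * q1 + 2 * q2 - 1 / 2 * q3) * n +
        (-3 / 2 * r1 + 2 * r2 - 1 / 2 * r3) * (n : ℂ) ^ 2 ∧
      a2 n = (1 / 2 * p1 - p2 + 1 / 2 * p3) + (1 / 2 * q1 - q2 + 1 / 2 * q3) * n +
        (1 / 2 * r1 - r2 + 1 / 2 * r3) * (n : ℂ) ^ 2 := by
    filter_upwards [eventually_gt_atTop 0] with n hn
    have hnR := natCast_RH hn
    refine ⟨by exact_mod_cast hn.ne', e1 n hnR, ?_, ?_⟩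
    · simp only [a1]
      rw [e1 n hnR, e2 n hnR, e3 n hnR]
      ring
    · simp only [a2]
      rw [e1 n hnR, e2 n hnR, e3 n hnR]
      ring
  have hn1 : Tendsto (fun n : ℕ => 1 / (n : ℂ)) atTop (𝓝 0) := tendsto_one_div_atTop_nhds_zero_nat
  -- `a0 = y`
  have c0 : p1 = 0 ∧ q1 - 1 = 0 ∧ r1 = 0 := by
    apply quad_zero
    have h1 := t0.mul hn1
    rw [mul_zero] at h1
    refine h1.congr' ?_
    filter_upwards [hev] with n hn
    obtain ⟨hn0, f0, _, _⟩ := hn
    rw [f0]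
    field_simp
    ring
  obtain ⟨hp1, hq1, hr1⟩ := c0
  -- `a1 = y`
  have c1 : (-3 / 2 * p1 + 2 * p2 - 1 / 2 * p3) = 0 ∧ (-3 / 2 * q1 + 2 * q2 - 1 / 2 * q3) - 1 = 0 ∧
      (-3 / 2 * r1 + 2 * r2 - 1 / 2 * r3) = 0 := by
    apply quad_zero
    have h1 := (t1.sub t2).const_mul (1 / 2)
    rw [sub_zero, mul_zero] at h1
    refine h1.congr' ?_
    filter_upwards [hev] with n hn
    obtain ⟨hn0, _, f1, _⟩ := hn
    rw [f1]
    field_simp
    ring
  -- `a2` is constant
  have c2 : (1 / 2 * q1 - q2 + 1 / 2 * q3) = 0 ∧ (1 / 2 * r1 - r2 + 1 / 2 * r3) = 0 := by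
    apply quad_div (a := (1 / 2 * p1 - p2 + 1 / 2 * p3))
    have h1 := ((t1.add t2).sub (t0.const_mul 2)).const_mul (1 / 2)
    rw [add_zero, mul_zero, sub_zero, mul_zero] at h1
    refine h1.congr' ?_
    filter_upwards [hev] with n hn
    obtain ⟨hn0, _, _, f2⟩ := hn
    rw [f2]
    field_simp
    ring
  -- the final form
  have hfin : ∀ x ∈ RH, ∀ y ∈ RH, T (x, y) = x * y + (1 / 2 * p1 - p2 + 1 / 2 * p3) * (x - 1) ^ 2 := by
    intro x hx y hy
    rw [hTx x hx y hy]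
    simp only [a0, a1, a2]
    rw [e1 y hy, e2 y hy, e3 y hy]
    obtain ⟨c11, c12, c13⟩ := c1
    obtain ⟨c21, c22⟩ := c2
    linear_combination hp1 + hq1 * y + hr1 * y ^ 2 + (x - 1) * (c11 + c12 * y + c13 * y ^ 2) +
      (x - 1) ^ 2 * (c21 * y + c22 * y ^ 2)
  have hsym := D.symT 2 h2R 1 h1R
  rw [hfin 2 h2R 1 h1R, hfin 1 h1R 2 h2R] at hsym
  have hc : (1 / 2 * p1 - p2 + 1 / 2 * p3) = 0 := by linear_combination hsym
  rw [hfin x hx y hy, hc]
  ring

end data

end Pool.Agent.Q184.BK
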